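import Pool.Agent.PVD.StmtsM2

/-!
Squad PVD, block M2, row ALC: convergence of the normalised derivatives.
-/

set_option autoImplicit false
open MeasureTheory Filter Topology Set

namespace Pool.Agent.PVD.M.H17

open Pool.Agent.PVD.L Pool.Agent.PVD.M

open Classical in
theorem alc (h3 : Mb3Stmt) (hD : DuaStmt) (hP : HpoStmt) (hS : SscStmt) : AlcStmt := by
  intro k hk A hA mu hmu ι F mm hi hmm hhi i0 hi0
  have hAne : A.Nonempty := ⟨i0, hi0⟩
  rw [tendsto_iff_ultrafilter]
  intro U hU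
  have hmmU : Tendsto mm (U : Filter ι) atTop := hmm.mono_left hU
  have hhiU : ∀ i ∈ A, Tendsto (fun x => hi x i) (U : Filter ι) (𝓝 (Hm (1 / k) mu i)) :=
    fun i h => (hhi i h).mono_left hU
  have hHpos : ∀ i ∈ A, 0 < Hm (1 / (k : ℝ)) mu i := hP k hk A hA mu hmu
  -- eventually everything is fine
  have hev1 : ∀ᶠ x in (U : Filter ι), 2 ≤ mm x := hmmU.eventually_ge_atTop 2
  have hev2 : ∀ᶠ x in (U : Filter ι), ∀ i ∈ A, Hm (1 / (k : ℝ)) mu i / 2 < hi x i := by
    rw [Filter.eventually_all_finset]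
    intro i h
    exact (hhiU i h).eventually_const_lt (half_lt_self (hHpos i h))
  set a : ι → Fin 4 → ℝ := fun x i => if i ∈ A then al k (mm x) A (hi x) i else 0 with ha
  set B : Fin 4 → ℝ := fun i => if i ∈ A then 2 / Hm (1 / (k : ℝ)) mu i else 0 with hB
  have hevb : ∀ᶠ x in (U : Filter ι), a x ∈ Set.pi Set.univ (fun i => Icc (0 : ℝ) (B i)) := by
    filter_upwards [hev1, hev2] with x hx1 hx2
    have hpos : ∀ i ∈ A, 0 < hi x i := fun i h => lt_trans (half_pos (hHpos i h)) (hx2 i h)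
    obtain ⟨-, m2, m3, -⟩ := h3 k (mm x) hk hx1 A (hi x) hAne hpos
    intro i _
    by_cases h : i ∈ A
    · simp only [ha, hB, if_pos h]
      refine ⟨m3 i h, ?_⟩
      have h1 : al k (mm x) A (hi x) i * hi x i ≤ 1 := by
        rw [← m2]
        exact Finset.single_le_sum (f := fun i => al k (mm x) A (hi x) i * hi x i)
          (fun j hj => mul_nonneg (m3 j hj) (hpos j hj).le) h
      rw [le_div_iff₀ (hHpos i h)]
      have h2 := hx2 i h
      have h4 := m3 i h
      nlinarith
    · simp only [ha, hB, if_neg h]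
      exact ⟨le_refl _, le_refl _⟩
  obtain ⟨p, hp, hpl⟩ := (isCompact_univ_pi (fun i => isCompact_Icc (a := (0 : ℝ)) (b := B i))).ultrafilter_le_nhds
    (U.map a) (by
      rw [Filter.le_principal_iff]
      exact hevb)
  have hta : Tendsto a (U : Filter ι) (𝓝 p) := hpl
  have htai : ∀ i, Tendsto (fun x => a x i) (U : Filter ι) (𝓝 (p i)) := tendsto_pi_nhds.mp hta
  have hp0 : ∀ i, 0 ≤ p i := fun i => (hp i (Set.mem_univ i)).1
  have hpA : ∀ i ∉ A, p i = 0 := by
    intro i h
    have h1 := hp i (Set.mem_univ i)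
    simp only [hB, if_neg h] at h1
    exact le_antisymm h1.2 h1.1
  have hsumA : ∀ g : Fin 4 → ℝ, ∑ i, p i * g i = ∑ i ∈ A, p i * g i := by
    intro g
    symm
    apply Finset.sum_subset (Finset.subset_univ A)
    intro i _ h
    rw [hpA i h, zero_mul]
  have hsa : ∀ x (g : Fin 4 → ℝ), ∑ i ∈ A, a x i * g i =
      ∑ i ∈ A, al k (mm x) A (hi x) i * g i := by
    intro x g
    apply Finset.sum_congr rfl
    intro i h
    simp only [ha, if_pos h]
  have hone : ∑ i, p i * Hm (1 / k) mu i = 1 := by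
    rw [hsumA]
    have ht : Tendsto (fun x => ∑ i ∈ A, a x i * hi x i) (U : Filter ι)
        (𝓝 (∑ i ∈ A, p i * Hm (1 / k) mu i)) :=
      tendsto_finsetSum _ fun i h => (htai i).mul (hhiU i h)
    have ht1 : Tendsto (fun x => ∑ i ∈ A, a x i * hi x i) (U : Filter ι) (𝓝 1) := by
      apply tendsto_const_nhds.congr'
      filter_upwards [hev1, hev2] with x hx1 hx2
      have hpos : ∀ i ∈ A, 0 < hi x i := fun i h => lt_trans (half_pos (hHpos i h)) (hx2 i h)
      rw [hsa]
      exact (h3 k (mm x) hk hx1 A (hi x) hAne hpos).2.1.symm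
    exact tendsto_nhds_unique ht ht1
  have hpm : p = mu := by
    apply hD k hk A hA mu p hmu hp0 hpA hone
    intro nu hnu
    have hnpos : ∀ i ∈ A, 0 < Hm (1 / (k : ℝ)) nu i := hP k hk A hA nu hnu
    have t1 := hS k hk A hA nu hnu ι (U : Filter ι) mm (fun _ => Hm (1 / k) nu) hmmU
      (fun i _ => tendsto_const_nhds)
    have t2 := hS k hk A hA mu hmu ι (U : Filter ι) mm hi hmmU hhiU
    have t3 : Tendsto (fun x => ∑ i ∈ A, a x i * Hm (1 / (k : ℝ)) nu i) (U : Filter ι)
        (𝓝 (∑ i ∈ A, p i * Hm (1 / k) nu i)) :=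
      tendsto_finsetSum _ fun i h => (htai i).mul tendsto_const_nhds
    have t4 := (t2.add t3).sub_const 1
    have hle := le_of_tendsto_of_tendsto t1 t4 (by
      filter_upwards [hev1, hev2] with x hx1 hx2
      have hpos : ∀ i ∈ A, 0 < hi x i := fun i h => lt_trans (half_pos (hHpos i h)) (hx2 i h)
      have := (h3 k (mm x) hk hx1 A (hi x) hAne hpos).2.2.2 (Hm (1 / k) nu) hnpos
      rw [hsa]
      exact this)
    rw [hsumA]
    linarith
  have := htai i0
  rw [hpm] at this
  refine this.congr fun x => ?_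
  simp only [ha, if_pos hi0]

end Pool.Agent.PVD.M.H17
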