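import Pool.Agent.PVD.StmtsG

/-!
Squad PVD, block G, row ASG: the assembly, from `FINStmt` to `NEGStmt`.
-/

set_option autoImplicit false

open MeasureTheory Metric Set Filter Topology

namespace PVD.H17

open PV PV3 PVD

theorem asg (h1 : PHIStmt) (h2 : NRMStmt) (h3 : PLCStmt) (h4 : FAEStmt) (h5 : MOMStmt)
    (h6 : SMDStmt) (h7 : FEQStmt) : ASGStmt := by
  rintro ⟨n, k, H, H', hn, hk, hkn, hH, hH', e1, e2, e3, e4, e5⟩
  obtain ⟨φ, hφ⟩ := h1 n
  have hmem : ∀ r, r ∈ R4 n k ↔ r = n ∨ r = 1 ∨ r = k ∨ r = n + 1 - k := by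
    intro r
    simp [R4]
  have hcl : ∀ r ∈ R4 n k, n + 1 - r ∈ R4 n k := by
    intro r hr
    rw [hmem] at hr ⊢
    omega
  have hrg : ∀ r ∈ R4 n k, 1 ≤ r ∧ r ≤ n := by
    intro r hr
    rw [hmem] at hr
    omega
  have hRO : RO n (R4 n k) := ⟨⟨n, by rw [hmem]; omega⟩, hrg⟩
  have es : ∀ r ∈ R4 n k, dW n (R4 n k) H r + dW n (R4 n k) H (n + 1 - r) =
      dW n (R4 n k) H' r + dW n (R4 n k) H' (n + 1 - r) := by
    intro r hr
    rw [hmem] at hr
    rcases hr with rfl | rfl | rfl | rfl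
    · rw [show r + 1 - r = 1 by omega]
      exact e1
    · rw [show n + 1 - 1 = n by omega]
      linarith
    · exact e3
    · rw [show n + 1 - (n + 1 - k) = k by omega]
      linarith
  have ed : ∀ r ∈ R4 n k, dW n (R4 n k) H r * H r - dW n (R4 n k) H (n + 1 - r) * H (n + 1 - r) =
      dW n (R4 n k) H' r * H' r - dW n (R4 n k) H' (n + 1 - r) * H' (n + 1 - r) := by
    intro r hr
    rw [hmem] at hr
    rcases hr with rfl | rfl | rfl | rfl
    · rw [show r + 1 - r = 1 by omega]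
      exact e2
    · rw [show n + 1 - 1 = n by omega]
      linarith
    · exact e4
    · rw [show n + 1 - (n + 1 - k) = k by omega]
      linarith
  obtain ⟨hN1, hN2, hN3⟩ := h2 n φ hφ
  obtain ⟨hUn, hBd, hP⟩ := h3 n φ (R4 n k) hφ hRO
  obtain ⟨hPl, hc, hCb⟩ := hP H
  obtain ⟨hPl', hc', hCb'⟩ := hP H'
  obtain ⟨κ, hκ, hfa⟩ := h4 n φ (by omega) hφ
  have hfaH := hfa (R4 n k) H hRO hH
  have hfaH' := hfa (R4 n k) H' hRO hH'
  have hU : ∀ w, w ∈ UU φ (R4 n k) ↔ ∃ A : Finset (Fin (n + 1)), A.card ∈ R4 n k ∧ wn φ A = w := by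
    intro w
    unfold UU
    simp
  have hcomp : ∀ A : Finset (Fin (n + 1)), A.card ∈ R4 n k →
      Aᶜ.card = n + 1 - A.card ∧ Aᶜ.card ∈ R4 n k ∧ wn φ Aᶜ = - wn φ A ∧ 0 < nu n A.card ∧
      nu n Aᶜ.card = nu n A.card ∧ ((n + 1).choose Aᶜ.card : ℝ) = ((n + 1).choose A.card : ℝ) ∧
      (0 : ℝ) < ((n + 1).choose A.card : ℝ) := by
    intro A hA
    have hr := hrg _ hA
    have hcd : Aᶜ.card = n + 1 - A.card := by
      rw [Finset.card_compl, Fintype.card_fin]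
    have h0 : 0 < A.card := by omega
    have h1' : A.card < n + 1 := by omega
    obtain ⟨hp, -, -, hneg, -, -⟩ := hN2 A h0 h1'
    refine ⟨hcd, ?_, hneg, hp, ?_, ?_, ?_⟩
    · rw [hcd]
      exact hcl _ hA
    · rw [hcd]
      exact hN3 _ (by omega)
    · rw [hcd, Nat.choose_symm (by omega : A.card ≤ n + 1)]
    · exact_mod_cast Nat.choose_pos (by omega : A.card ≤ n + 1)
  have hneg : ∀ w ∈ UU φ (R4 n k), -w ∈ UU φ (R4 n k) := by
    intro w hw
    rw [hU] at hw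
    obtain ⟨A, hA, rfl⟩ := hw
    obtain ⟨-, h2', h3', -⟩ := hcomp A hA
    rw [hU]
    exact ⟨Aᶜ, h2', h3'⟩
  have hKL : PP φ (R4 n k) H ≠ PP φ (R4 n k) H' := by
    intro heq
    have hEq : Pl (UU φ (R4 n k)) (cH φ (R4 n k) H) = Pl (UU φ (R4 n k)) (cH φ (R4 n k) H') := by
      rw [hPl, hPl', heq]
    have hA : ({0} : Finset (Fin (n + 1))).card ∈ R4 n k := by
      rw [Finset.card_singleton, hmem]
      omega
    have hw : wn φ ({0} : Finset (Fin (n + 1))) ∈ UU φ (R4 n k) := by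
      rw [hU]
      exact ⟨_, hA, rfl⟩
    have hF := h7 n (UU φ (R4 n k)) _ _ hUn hBd hEq _ hw
    rw [hfaH _ hA, hfaH' _ hA] at hF
    obtain ⟨-, -, -, hp, -, -, hch⟩ := hcomp _ hA
    rw [Finset.card_singleton] at hF hp hch
    apply e5
    rw [div_left_inj' hch.ne'] at hF
    exact mul_left_cancel₀ (mul_pos hκ hp).ne' hF
  have hSD : SameData (Pl (UU φ (R4 n k)) (cH φ (R4 n k) H))
      (Pl (UU φ (R4 n k)) (cH φ (R4 n k) H')) := by
    apply h6 n (UU φ (R4 n k)) _ _ (by omega) hUn hBd hneg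
    · intro w hw
      rw [hU] at hw
      obtain ⟨A, hA, rfl⟩ := hw
      exact h5 n φ (R4 n k) H hφ hRO A hA
    · intro w hw
      rw [hU] at hw
      obtain ⟨A, hA, rfl⟩ := hw
      exact h5 n φ (R4 n k) H' hφ hRO A hA
    · intro w hw
      rw [hU] at hw
      obtain ⟨A, hA, rfl⟩ := hw
      obtain ⟨c1, c2, c3, c4, c5, c6, c7⟩ := hcomp A hA
      rw [← c3, hfaH _ hA, hfaH' _ hA, hfaH _ c2, hfaH' _ c2, c5, c6, c1]
      have := es _ hA
      rw [← add_div, ← add_div, ← mul_add, ← mul_add, this]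
    · intro w hw
      rw [hU] at hw
      obtain ⟨A, hA, rfl⟩ := hw
      obtain ⟨c1, c2, c3, c4, c5, c6, c7⟩ := hcomp A hA
      rw [← c3, hfaH _ hA, hfaH' _ hA, hfaH _ c2, hfaH' _ c2, hc _ hA, hc' _ hA, hc _ c2,
        hc' _ c2, c5, c6, c1]
      have := ed _ hA
      have hx : ∀ d h : ℝ, κ * nu n A.card * d / ((n + 1).choose A.card : ℝ) *
          (h / nu n A.card) = κ / ((n + 1).choose A.card : ℝ) * (d * h) := by
        intro d h
        field_simp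
      rw [hx, hx, hx, hx, ← mul_sub, ← mul_sub, this]
  rw [hPl, hPl'] at hSD
  have hC := hCb hH
  have hC' := hCb' hH'
  exact ⟨n, PP φ (R4 n k) H, PP φ (R4 n k) H', hn, hC.cpt, hC.cvx, hC.full, hC'.cpt, hC'.cvx,
    hC'.full, hSD, hKL⟩

end PVD.H17
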