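import Pool.Agent.PVD.StmtsM2

/-!
Squad PVD, block M2, row MB2: the coefficients are the class functions.
-/

set_option autoImplicit false
open MeasureTheory Filter Topology Set

namespace Pool.Agent.PVD.M.H17

open Pool.Agent.PVD.L Pool.Agent.PVD.M

theorem aux (M r x : ℝ) (hM : 0 < M) : min r x * (M - max r x) / M =
    M * (min (x / M) (r / M) - r / M * (x / M)) := by
  rcases le_total r x with h | h
  · rw [min_eq_left h, max_eq_right h, min_eq_right (by gcongr)]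
    field_simp
  · rw [min_eq_right h, max_eq_left h, min_eq_left (by gcongr)]
    field_simp

theorem mb2 : Mb2Stmt := by
  intro k m hk hm i j
  have hkm : 1 ≤ k * m := Nat.mul_pos (by omega) (by omega)
  have hj : j.1 < k * m - 1 := j.2
  have hN : ((nn k m : ℕ) : ℝ) = (k : ℝ) * m - 1 := by
    unfold nn
    rw [Nat.cast_sub hkm]
    push_cast
    ring
  have hk0 : (0 : ℝ) < k := by
    have : 0 < k := by omega
    exact_mod_cast this
  have hm0 : (0 : ℝ) < m := by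
    have : 0 < m := by omega
    exact_mod_cast this
  have hM : (0 : ℝ) < (k : ℝ) * m := mul_pos hk0 hm0
  have hjr : ((j.1 + 1 : ℕ) : ℝ) = (j.1 : ℝ) + 1 := by push_cast; ring
  have hj0 : (0 : ℝ) ≤ (j.1 : ℝ) := Nat.cast_nonneg _
  have hj1 : (j.1 : ℝ) + 1 ≤ (k : ℝ) * m - 1 := by
    rw [← hN, ← hjr]
    exact_mod_cast (by unfold nn; omega : j.1 + 1 ≤ nn k m)
  unfold _root_.PVD.kap
  rw [hN, hjr, show (k : ℝ) * m - 1 + 1 = (k : ℝ) * m by ring]
  fin_cases i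
  · show min ((1 : ℕ) : ℝ) ((j.1 : ℝ) + 1) * ((k : ℝ) * m - max ((1 : ℕ) : ℝ) ((j.1 : ℝ) + 1)) /
      ((k : ℝ) * m) = 1 * (1 - ((j.1 : ℝ) + 1) / ((k : ℝ) * m))
    rw [Nat.cast_one, min_eq_left (by linarith), max_eq_right (by linarith)]
    field_simp
  · show min ((nn k m : ℕ) : ℝ) ((j.1 : ℝ) + 1) *
      ((k : ℝ) * m - max ((nn k m : ℕ) : ℝ) ((j.1 : ℝ) + 1)) /
      ((k : ℝ) * m) = 1 * (((j.1 : ℝ) + 1) / ((k : ℝ) * m))
    rw [hN, min_eq_right hj1, max_eq_left hj1]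
    ring
  · show min ((m : ℕ) : ℝ) ((j.1 : ℝ) + 1) *
      ((k : ℝ) * m - max ((m : ℕ) : ℝ) ((j.1 : ℝ) + 1)) /
      ((k : ℝ) * m) = (k : ℝ) * m * (min (((j.1 : ℝ) + 1) / ((k : ℝ) * m)) (1 / (k : ℝ)) -
        1 / (k : ℝ) * (((j.1 : ℝ) + 1) / ((k : ℝ) * m)))
    rw [aux _ _ _ hM, show (m : ℝ) / ((k : ℝ) * m) = 1 / (k : ℝ) by field_simp]
  · have h3 : ((nn k m + 1 - m : ℕ) : ℝ) = (k : ℝ) * m - m := by
      have hle : m ≤ nn k m + 1 := by
        have : m ≤ k * m := Nat.le_mul_of_pos_left m (by omega)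
        unfold nn
        omega
      rw [Nat.cast_sub hle]
      push_cast
      rw [hN]
      ring
    show min ((nn k m + 1 - m : ℕ) : ℝ) ((j.1 : ℝ) + 1) *
      ((k : ℝ) * m - max ((nn k m + 1 - m : ℕ) : ℝ) ((j.1 : ℝ) + 1)) /
      ((k : ℝ) * m) = (k : ℝ) * m * (min (((j.1 : ℝ) + 1) / ((k : ℝ) * m)) (1 - 1 / (k : ℝ)) -
        (1 - 1 / (k : ℝ)) * (((j.1 : ℝ) + 1) / ((k : ℝ) * m)))
    rw [h3, aux _ _ _ hM, show ((k : ℝ) * m - m) / ((k : ℝ) * m) = 1 - 1 / (k : ℝ) by field_simp]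

end Pool.Agent.PVD.M.H17
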